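import Pool.Agent.TH943.TT.Bd

/-!
The curves `y ^ 2 = x (x ^ 2 + α x + β)` over `k(t)`.
-/

set_option autoImplicit false
set_option linter.all false
set_option maxHeartbeats 4000000

open Polynomial FF Module

namespace Pool.Agent.TH943.TT

open Pool.Agent.W343.BSD Pool.Agent.W313.Gr Pool.Agent.W309.RF
open Pool.Agent.TH943.LG (primes mem_primes)

section defs

variable {k : Type} [Field k]

/-- the first coefficient, as a polynomial -/
noncomputable def aP (α β : k[X]) : k[X] := β - C (3 : k)⁻¹ * α ^ 2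

/-- the second coefficient, as a polynomial -/
noncomputable def bP (α β : k[X]) : k[X] :=
  C (3 : k)⁻¹ * (α * (C (2 : k) * C (9 : k)⁻¹ * α ^ 2 - β))

/-- the contribution of the place at infinity -/
noncomputable def wInf (α β : k[X]) : ℕ :=
  if Even α.natDegree ∧ β.natDegree ≤ 2 * α.natDegree then
    (if β.natDegree = 2 * α.natDegree ∧ (α ^ 2 - 4 * β).natDegree = 2 * α.natDegree then 0 else 1)
  else if 4 ∣ β.natDegree ∧ 2 * α.natDegree < β.natDegree then 0 else 2

theorem C3 (h3 : (3 : k) ≠ 0) : (3 : k[X]) * C (3 : k)⁻¹ = 1 := by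
  have : (3 : k[X]) = C 3 := by rw [map_ofNat]
  rw [this, ← C_mul, mul_inv_cancel₀ h3, C_1]

theorem C9 (h3 : (3 : k) ≠ 0) : (9 : k[X]) * C (9 : k)⁻¹ = 1 := by
  have h9 : (9 : k) ≠ 0 := by
    have : (9 : k) = 3 ^ 2 := by norm_num
    rw [this]
    exact pow_ne_zero 2 h3
  have : (9 : k[X]) = C 9 := by rw [map_ofNat]
  rw [this, ← C_mul, mul_inv_cancel₀ h9, C_1]

theorem three_aP (h3 : (3 : k) ≠ 0) (α β : k[X]) :
    3 * aP α β = 3 * β - α ^ 2 := by
  unfold aP
  linear_combination -α ^ 2 * C3 h3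

theorem three_aP' (h3 : (3 : k) ≠ 0) (α β : k[X]) :
    3 * aP α β = -β - (α ^ 2 - 4 * β) := by
  rw [three_aP h3]
  ring

theorem C2 : C (2 : k) = 2 := by rw [map_ofNat]

theorem disc_poly (h3 : (3 : k) ≠ 0) (α β : k[X]) :
    4 * aP α β ^ 3 + 27 * bP α β ^ 2 = -(β ^ 2 * (α ^ 2 - 4 * β)) := by
  have h := C3 h3
  have h9 := C9 h3
  have h27 : (27 : k[X]) ≠ 0 := by
    have : (27 : k[X]) = C (3 ^ 3 : k) := by
      rw [map_pow, map_ofNat]
      norm_num
    rw [this, Ne, C_eq_zero]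
    exact pow_ne_zero 3 h3
  have e1 : 27 * aP α β ^ 3 = (3 * β - α ^ 2) ^ 3 := by
    rw [← three_aP h3]
    ring
  have e2 : 27 * bP α β = α * (2 * α ^ 2 - 9 * β) := by
    unfold bP
    rw [C2]
    linear_combination (9 * α * (2 * C (9 : k)⁻¹ * α ^ 2 - β)) * h + 2 * α ^ 3 * h9
  apply mul_left_cancel₀ h27
  have e3 : 27 * (4 * aP α β ^ 3 + 27 * bP α β ^ 2) =
      4 * (27 * aP α β ^ 3) + (27 * bP α β) ^ 2 := by ring
  rw [e3, e1, e2]
  ring

theorem root_poly (h3 : (3 : k) ≠ 0) (α β : k[X]) :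
    (C (3 : k)⁻¹ * α) ^ 3 + aP α β * (C (3 : k)⁻¹ * α) + bP α β = 0 := by
  have h := C3 h3
  have h9 := C9 h3
  have h27 : (27 : k[X]) ≠ 0 := by
    have : (27 : k[X]) = C (3 ^ 3 : k) := by
      rw [map_pow, map_ofNat]
      norm_num
    rw [this, Ne, C_eq_zero]
    exact pow_ne_zero 3 h3
  have e2 : 27 * bP α β = α * (2 * α ^ 2 - 9 * β) := by
    unfold bP
    rw [C2]
    linear_combination (9 * α * (2 * C (9 : k)⁻¹ * α ^ 2 - β)) * h + 2 * α ^ 3 * h9
  have e4 : 3 * (C (3 : k)⁻¹ * α) = α := by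
    linear_combination α * h
  apply mul_left_cancel₀ h27
  have e3 : 27 * ((C (3 : k)⁻¹ * α) ^ 3 + aP α β * (C (3 : k)⁻¹ * α) + bP α β) =
      (3 * (C (3 : k)⁻¹ * α)) ^ 3 + 3 * (3 * aP α β) * (3 * (C (3 : k)⁻¹ * α)) +
        27 * bP α β := by ring
  rw [e3, e2, e4, three_aP h3, mul_zero]
  ring

theorem natDegree_C_mul_le' (c : k) (f : k[X]) : (C c * f).natDegree ≤ f.natDegree :=
  natDegree_C_mul_le c f

theorem deg_aP {α β : k[X]} {n : ℕ} (h1 : 2 * α.natDegree ≤ n) (h2 : β.natDegree ≤ n) :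
    (aP α β).natDegree ≤ n := by
  unfold aP
  refine (natDegree_sub_le _ _).trans (max_le h2 ?_)
  refine (natDegree_C_mul_le _ _).trans ?_
  rw [natDegree_pow]
  exact h1

theorem deg_bP {α β : k[X]} {n : ℕ} (h1 : 2 * α.natDegree ≤ n) (h2 : β.natDegree ≤ n) :
    (bP α β).natDegree ≤ α.natDegree + n := by
  unfold bP
  refine (natDegree_C_mul_le _ _).trans (natDegree_mul_le.trans ?_)
  refine Nat.add_le_add_left ((natDegree_sub_le _ _).trans (max_le ?_ h2)) _
  rw [← C_mul]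
  refine (natDegree_C_mul_le _ _).trans ?_
  rw [natDegree_pow]
  exact h1

end defs

section bound

variable {k : Type} [Field k] [Finite k]

theorem natDegree_three_mul (h3 : (3 : k) ≠ 0) (f : k[X]) : (3 * f).natDegree = f.natDegree := by
  have : (3 : k[X]) = C 3 := by rw [map_ofNat]
  rw [this, natDegree_C_mul h3]

theorem natDegree_four_mul (h2 : (2 : k) ≠ 0) (f : k[X]) : (4 * f).natDegree = f.natDegree := by
  have : (4 : k[X]) = C (2 ^ 2) := by rw [map_pow, map_ofNat]; norm_num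
  rw [this, natDegree_C_mul (pow_ne_zero 2 h2)]

theorem A_sum (f g : k[X]) : (4 : RatFunc k) * A f ^ 3 + 27 * A g ^ 2 =
    A (4 * f ^ 3 + 27 * g ^ 2) := by
  show 4 * algebraMap k[X] (RatFunc k) f ^ 3 + 27 * algebraMap k[X] (RatFunc k) g ^ 2 =
    algebraMap k[X] (RatFunc k) _
  simp only [map_mul, map_add, map_pow, map_ofNat]

theorem A_mul' (f g : k[X]) : A (f * g) = A f * A g := map_mul (algebraMap k[X] (RatFunc k)) f g

theorem A_pow' (f : k[X]) (n : ℕ) : A (f ^ n) = A f ^ n :=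
  map_pow (algebraMap k[X] (RatFunc k)) f n

theorem disc_ne (h3 : (3 : k) ≠ 0) {α β : k[X]} (hβ : β ≠ 0) (hγ : α ^ 2 - 4 * β ≠ 0) :
    (4 : RatFunc k) * A (aP α β) ^ 3 + 27 * A (bP α β) ^ 2 ≠ 0 := by
  rw [A_sum, disc_poly h3]
  exact A_ne (neg_ne_zero.2 (mul_ne_zero (pow_ne_zero 2 hβ) hγ))

/-- the exponent at a finite place -/
theorem condExp_fin (h6 : (6 : k) ≠ 0) {α β : k[X]} (hβ : β ≠ 0) (hγ : α ^ 2 - 4 * β ≠ 0)
    (hcop : IsCoprime α β) {v : Place k (RatFunc k)} (hX : 0 ≤ v.ord RatFunc.X)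
    (h0 : condExp v (A (aP α β)) (A (bP α β)) ≠ 0) :
    condExp v (A (aP α β)) (A (bP α β)) = 1 ∧ (0 < v.ord (A β) ∨ 0 < v.ord (A (α ^ 2 - 4 * β))) := by
  obtain ⟨π, hirr, hord, hnn, hdvd, hdeg⟩ := exists_irr hX
  have h3 : (3 : k) ≠ 0 := by
    have := three_ne h6
    exact_mod_cast this
  have h2 : (2 : k) ≠ 0 := by
    have := two_ne h6
    exact_mod_cast this
  have hprime := hirr.prime
  have hΔ := disc_ne h3 hβ hγ
  have hD0 : -(β ^ 2 * (α ^ 2 - 4 * β)) ≠ 0 :=
    neg_ne_zero.2 (mul_ne_zero (pow_ne_zero 2 hβ) hγ)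
  have hrA : v.Reg ((1 : RatFunc k) ^ 4 * A (aP α β)) := by
    rw [one_pow, one_mul]; exact fin_reg hX _
  have hrB : v.Reg ((1 : RatFunc k) ^ 6 * A (bP α β)) := by
    rw [one_pow, one_mul]; exact fin_reg hX _
  have hor : π ∣ β ∨ π ∣ α ^ 2 - 4 * β := by
    by_contra hcon
    push Not at hcon
    apply h0
    refine condExp_good hΔ one_ne_zero hrA hrB ?_
    rw [one_pow, one_mul, A_sum, disc_poly h3]
    have h5 : ¬ π ∣ -(β ^ 2 * (α ^ 2 - 4 * β)) := by
      rw [dvd_neg]
      intro h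
      rcases hprime.dvd_or_dvd h with h | h
      · exact hcon.1 (hprime.dvd_of_dvd_pow h)
      · exact hcon.2 h
    have h6 := (hdvd _ hD0).not.2 h5
    have h7 := hnn _ hD0
    omega
  have hunit : ∀ c : k, c ≠ 0 → ¬ π ∣ C c := by
    intro c hc h
    exact hirr.not_isUnit (isUnit_of_dvd_unit h (isUnit_C.2 hc.isUnit))
  have hnα : π ∣ β → ¬ π ∣ α := fun h1 h2 => hirr.not_isUnit (hcop.isUnit_of_dvd' h2 h1)
  have hnβ : π ∣ α ^ 2 - 4 * β → ¬ π ∣ β := by
    intro h1 h2
    have h3 : π ∣ α ^ 2 := by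
      have : α ^ 2 = (α ^ 2 - 4 * β) + 4 * β := by ring
      rw [this]
      exact dvd_add h1 (h2.mul_left _)
    exact hnα h2 (hprime.dvd_of_dvd_pow h3)
  have hna : ¬ π ∣ aP α β := by
    intro h
    have h4 : π ∣ 3 * aP α β := h.mul_left _
    rcases hor with h5 | h5
    · rw [three_aP h3] at h4
      have h7 : π ∣ α ^ 2 := by
        have : α ^ 2 = 3 * β - (3 * β - α ^ 2) := by ring
        rw [this]
        exact dvd_sub (h5.mul_left _) h4
      exact hnα h5 (hprime.dvd_of_dvd_pow h7)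
    · rw [three_aP' h3] at h4
      have h7 : π ∣ β := by
        have : β = -((-β - (α ^ 2 - 4 * β)) + (α ^ 2 - 4 * β)) := by ring
        rw [this, dvd_neg]
        exact dvd_add h4 h5
      exact hnβ h5 h7
  have ha0 : aP α β ≠ 0 := by
    intro h
    rw [h] at hna
    exact hna (dvd_zero _)
  have h1 : condExp v (A (aP α β)) (A (bP α β)) ≤ 1 := by
    refine condExp_mult hΔ one_ne_zero hrA hrB (A_ne ha0) ?_
    rw [one_pow, one_mul]
    have h8 := (hdvd _ ha0).not.2 hna
    have h9 := hnn _ ha0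
    omega
  refine ⟨by omega, ?_⟩
  rcases hor with h | h
  · exact Or.inl ((hdvd _ hβ).2 h)
  · exact Or.inr ((hdvd _ hγ).2 h)

theorem reg_inf {v : Place k (RatFunc k)} (hX : v.ord RatFunc.X < 0) {f : k[X]} {e j : ℕ}
    (h : f.natDegree ≤ e * j) : v.Reg (((A (X ^ e : k[X]))⁻¹) ^ j * A f) := by
  by_cases hf : f = 0
  · rw [hf]
    have : A (0 : k[X]) = 0 := map_zero (algebraMap k[X] (RatFunc k))
    rw [this, mul_zero]
    left
    rfl
  · have h1 : A (X ^ e : k[X]) ≠ 0 := A_ne (pow_ne_zero _ X_ne_zero)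
    have h2 : ((A (X ^ e : k[X]))⁻¹) ^ j ≠ 0 := pow_ne_zero _ (inv_ne_zero h1)
    rw [v.reg_iff (mul_ne_zero h2 (A_ne hf)), v.ord_mul h2 (A_ne hf), v.ord_pow,
      v.ord_inv _, inf_ord' hX (pow_ne_zero _ X_ne_zero), inf_ord' hX hf, natDegree_X_pow]
    have : (f.natDegree : ℤ) ≤ e * j := by exact_mod_cast h
    linarith

theorem ord_inf {v : Place k (RatFunc k)} (hX : v.ord RatFunc.X < 0) {f : k[X]} (hf : f ≠ 0)
    {e j : ℕ} (h : f.natDegree = e * j) : v.ord (((A (X ^ e : k[X]))⁻¹) ^ j * A f) = 0 := by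
  have h1 : A (X ^ e : k[X]) ≠ 0 := A_ne (pow_ne_zero _ X_ne_zero)
  have h2 : ((A (X ^ e : k[X]))⁻¹) ^ j ≠ 0 := pow_ne_zero _ (inv_ne_zero h1)
  rw [v.ord_mul h2 (A_ne hf), v.ord_pow,
    v.ord_inv _, inf_ord' hX (pow_ne_zero _ X_ne_zero), inf_ord' hX hf, natDegree_X_pow]
  have : (f.natDegree : ℤ) = e * j := by exact_mod_cast h
  linarith

/-- the exponent at infinity -/
theorem condExp_inf (h6 : (6 : k) ≠ 0) {α β : k[X]} (hβ : β ≠ 0) (hγ : α ^ 2 - 4 * β ≠ 0)
    (hcop : IsCoprime α β) {v : Place k (RatFunc k)} (hX : v.ord RatFunc.X < 0) :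
    condExp v (A (aP α β)) (A (bP α β)) ≤ wInf α β := by
  have h3 : (3 : k) ≠ 0 := by
    have := three_ne h6
    exact_mod_cast this
  have h2 : (2 : k) ≠ 0 := by
    have := two_ne h6
    exact_mod_cast this
  have hΔ := disc_ne h3 hβ hγ
  have hD0 : -(β ^ 2 * (α ^ 2 - 4 * β)) ≠ 0 :=
    neg_ne_zero.2 (mul_ne_zero (pow_ne_zero 2 hβ) hγ)
  have hDdeg : (-(β ^ 2 * (α ^ 2 - 4 * β))).natDegree =
      2 * β.natDegree + (α ^ 2 - 4 * β).natDegree := by
    rw [natDegree_neg, natDegree_mul (pow_ne_zero 2 hβ) hγ, natDegree_pow]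
  have hc0 : ∀ e : ℕ, (A (X ^ e : k[X]))⁻¹ ≠ 0 := fun e =>
    inv_ne_zero (A_ne (pow_ne_zero _ X_ne_zero))
  unfold wInf
  split_ifs with c1 c2 c3
  · obtain ⟨⟨e, he⟩, hle⟩ := c1
    have hrA : v.Reg (((A (X ^ e : k[X]))⁻¹) ^ 4 * A (aP α β)) := by
      apply reg_inf hX
      exact deg_aP (by omega) (by omega)
    have hrB : v.Reg (((A (X ^ e : k[X]))⁻¹) ^ 6 * A (bP α β)) := by
      apply reg_inf hX
      refine (deg_bP (n := 4 * e) (by omega) (by omega)).trans (by omega)
    rw [condExp_good hΔ (hc0 e) hrA hrB]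
    rw [A_sum, disc_poly h3]
    apply ord_inf hX hD0
    rw [hDdeg]
    omega
  · obtain ⟨⟨e, he⟩, hle⟩ := c1
    have hrA : v.Reg (((A (X ^ e : k[X]))⁻¹) ^ 4 * A (aP α β)) := by
      apply reg_inf hX
      exact deg_aP (by omega) (by omega)
    have hrB : v.Reg (((A (X ^ e : k[X]))⁻¹) ^ 6 * A (bP α β)) := by
      apply reg_inf hX
      refine (deg_bP (n := 4 * e) (by omega) (by omega)).trans (by omega)
    have hα : α ≠ 0 := by
      rintro rfl
      apply c2
      have h5 : IsUnit β := isCoprime_zero_left.1 hcop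
      have h7 : β.natDegree = 0 := natDegree_eq_zero_of_isUnit h5
      refine ⟨by rw [h7, natDegree_zero], ?_⟩
      have : ((0 : k[X]) ^ 2 - 4 * β) = -(4 * β) := by ring
      rw [this, natDegree_neg, natDegree_four_mul h2, h7, natDegree_zero]
    have hα2 : (α ^ 2).natDegree = 4 * e := by rw [natDegree_pow]; omega
    have key : (3 * aP α β).natDegree = 4 * e ∧ 3 * aP α β ≠ 0 := by
      by_cases hlt : β.natDegree < 2 * α.natDegree
      · rw [three_aP h3]
        have h8 : (3 * β).natDegree < (α ^ 2).natDegree := by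
          rw [natDegree_three_mul h3, hα2]; omega
        refine ⟨by rw [natDegree_sub_eq_right_of_natDegree_lt h8, hα2], ?_⟩
        intro h9
        have h10 : 3 * β = α ^ 2 := sub_eq_zero.1 h9
        rw [h10] at h8
        exact lt_irrefl _ h8
      · have heq : β.natDegree = 2 * α.natDegree := by omega
        have hlt2 : (α ^ 2 - 4 * β).natDegree < β.natDegree := by
          have h8 : (α ^ 2 - 4 * β).natDegree ≤ 4 * e := by
            refine (natDegree_sub_le _ _).trans (max_le (by rw [hα2]) ?_)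
            rw [natDegree_four_mul h2]; omega
          have h9 : (α ^ 2 - 4 * β).natDegree ≠ 2 * α.natDegree := fun h => c2 ⟨heq, h⟩
          omega
        rw [three_aP' h3]
        have h8 : (α ^ 2 - 4 * β).natDegree < (-β).natDegree := by rwa [natDegree_neg]
        refine ⟨by rw [natDegree_sub_eq_left_of_natDegree_lt h8, natDegree_neg]; omega, ?_⟩
        intro h9
        have h10 : -β = α ^ 2 - 4 * β := sub_eq_zero.1 h9
        rw [← h10] at h8
        exact lt_irrefl _ h8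
    have ha0 : aP α β ≠ 0 := right_ne_zero_of_mul key.2
    refine condExp_mult hΔ (hc0 e) hrA hrB (A_ne ha0) ?_
    apply ord_inf hX ha0
    rw [← natDegree_three_mul h3, key.1]
    ring
  · obtain ⟨⟨e, he⟩, hlt⟩ := c3
    have hrA : v.Reg (((A (X ^ e : k[X]))⁻¹) ^ 4 * A (aP α β)) := by
      apply reg_inf hX
      exact deg_aP (by omega) (by omega)
    have hrB : v.Reg (((A (X ^ e : k[X]))⁻¹) ^ 6 * A (bP α β)) := by
      apply reg_inf hX
      refine (deg_bP (n := 4 * e) (by omega) (by omega)).trans (by omega)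
    rw [condExp_good hΔ (hc0 e) hrA hrB]
    rw [A_sum, disc_poly h3]
    apply ord_inf hX hD0
    rw [hDdeg]
    have h8 : (α ^ 2).natDegree < (4 * β).natDegree := by
      rw [natDegree_pow, natDegree_four_mul h2]; omega
    rw [natDegree_sub_eq_right_of_natDegree_lt h8, natDegree_four_mul h2]
    omega
  · exact condExp_le _ _ _

theorem root_fam (h3 : (3 : k) ≠ 0) (α β : k[X]) : (A (C (3 : k)⁻¹ * α)) ^ 3 +
    A (aP α β) * (A (C (3 : k)⁻¹ * α)) + A (bP α β) = 0 := by
  have h1 := congrArg (algebraMap k[X] (RatFunc k)) (root_poly h3 α β)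
  rw [map_add, map_add, map_mul, map_pow, map_zero] at h1
  exact h1

/-- the conductor over `k(t)` -/
theorem cond_fam (h6 : (6 : k) ≠ 0) {α β : k[X]} (hβ : β ≠ 0) (hγ : α ^ 2 - 4 * β ≠ 0)
    (hcop : IsCoprime α β) : condSum k (A (aP α β)) (A (bP α β)) ≤
      ∑ P ∈ primes β, twoPart P.natDegree +
      ∑ P ∈ primes (α ^ 2 - 4 * β), twoPart P.natDegree + wInf α β := by
  classical
  have h3 : (3 : k) ≠ 0 := by
    have := three_ne h6
    exact_mod_cast this
  have hΔ := disc_ne h3 hβ hγ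
  set B : Finset (Place k (RatFunc k)) := (bad_finite (k := k) hΔ).toFinset with hBdef
  have hB : ∀ v, v ∈ B ↔ v.red (minDisc v (A (aP α β)) (A (bP α β))) = 0 := by
    intro v
    rw [hBdef, Set.Finite.mem_toFinset]
    rfl
  rw [condSum_eq hΔ B hB]
  have hdisj : Disjoint (primes β) (primes (α ^ 2 - 4 * β)) := by
    rw [Finset.disjoint_left]
    intro P hP hP2
    have g1 := (mem_primes hβ).1 hP
    have g2 := (mem_primes hγ).1 hP2
    have g3 : P ∣ α ^ 2 := by
      have : α ^ 2 = (α ^ 2 - 4 * β) + 4 * β := by ring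
      rw [this]
      exact dvd_add g2.2.2 (g1.2.2.mul_left _)
    exact g1.2.1.not_isUnit (hcop.isUnit_of_dvd' (g1.2.1.prime.dvd_of_dvd_pow g3) g1.2.2)
  rw [← Finset.sum_union hdisj]
  apply sum_le (g := fun v => condExp v (A (aP α β)) (A (bP α β)) * twoPart v.deg)
    (G := fun P => twoPart P.natDegree) B (primes β ∪ primes (α ^ 2 - 4 * β))
  · intro v hv hX hg
    have hc0 : condExp v (A (aP α β)) (A (bP α β)) ≠ 0 := left_ne_zero_of_mul hg
    obtain ⟨hc1, hor⟩ := condExp_fin h6 hβ hγ hcop hX hc0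
    obtain ⟨π, hirr, hord, hnn, hdvd, hdeg⟩ := exists_irr hX
    have hass : Associated π (normalize π) := (normalize_associated π).symm
    have hmon : (normalize π).Monic := Polynomial.monic_normalize hirr.ne_zero
    refine ⟨normalize π, ?_, hass.irreducible hirr, ?_, ?_⟩
    · rw [Finset.mem_union]
      rcases hor with h | h
      · left
        rw [mem_primes hβ]
        exact ⟨hmon, hass.irreducible hirr, (hass.symm.dvd).trans ((hdvd _ hβ).1 h)⟩
      · right
        rw [mem_primes hγ]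
        exact ⟨hmon, hass.irreducible hirr, (hass.symm.dvd).trans ((hdvd _ hγ).1 h)⟩
    · exact (hdvd _ (hass.irreducible hirr).ne_zero).2 hass.dvd
    · show condExp v (A (aP α β)) (A (bP α β)) * twoPart v.deg ≤ twoPart (normalize π).natDegree
      rw [hc1, one_mul, hdeg, deg_of_assoc hass]
  · intro v hv hX
    show condExp v (A (aP α β)) (A (bP α β)) * twoPart v.deg ≤ _
    rw [inf_deg hX, twoPart_one, mul_one]
    exact condExp_inf h6 hβ hγ hcop hX

end bound

section primes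

variable {k : Type} [Field k]

open Classical in
theorem primes_irr {D : k[X]} (h : Irreducible D) : primes D = {normalize D} := by
  ext P
  rw [mem_primes h.ne_zero, Finset.mem_singleton]
  constructor
  · rintro ⟨h1, h2, h3⟩
    have h4 : Associated P D := h2.associated_of_dvd h h3
    rw [← h1.normalize_eq_self]
    exact normalize_eq_normalize h4.dvd h4.symm.dvd
  · rintro rfl
    exact ⟨Polynomial.monic_normalize h.ne_zero, (normalize_associated D).symm.irreducible h,
      (normalize_associated D).dvd⟩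

theorem sum_irr {D : k[X]} (h : Irreducible D) (f : ℕ → ℕ) :
    ∑ P ∈ primes D, f P.natDegree = f D.natDegree := by
  classical
  rw [primes_irr h, Finset.sum_singleton, natDegree_eq_of_degree_eq
    (degree_eq_degree_of_associated (normalize_associated D))]

theorem primes_const {D : k[X]} (hD : D ≠ 0) (h : D.natDegree = 0) : primes D = ∅ := by
  rw [Finset.eq_empty_iff_forall_notMem]
  intro P hP
  have h3 := (mem_primes hD).1 hP
  have h4 := natDegree_le_of_dvd h3.2.2 hD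
  have h5 := h3.2.1.natDegree_pos
  omega

theorem pow_val_odd {n : ℕ} (h : Odd n) : 2 ^ padicValNat 2 n = 1 := by
  have : ¬ 2 ∣ n := by
    intro h2
    obtain ⟨j, hj⟩ := h
    omega
  rw [padicValNat.eq_zero_of_not_dvd this, pow_zero]

theorem pow_val_two_odd {n : ℕ} (h : Odd n) : 2 ^ padicValNat 2 (2 * n) = 2 := by
  have h0 : n ≠ 0 := by
    rintro rfl
    exact absurd h (by decide)
  rw [padicValNat.mul two_ne_zero h0, pow_add, pow_val_odd h, padicValNat_self, pow_one, mul_one]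

end primes

end Pool.Agent.TH943.TT
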