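import Pool.Agent.TH943.LG.Bd
import Pool.Agent.W313.Gr.Two

/-!
The bound for the order of vanishing for elliptic curves with a rational point of order two.
-/

set_option autoImplicit false
set_option linter.all false
set_option maxHeartbeats 4000000

open PowerSeries FF Module

namespace Pool.Agent.TH943.TT

open Pool.Agent.H123R3.ZT Pool.Agent.W343.BSD Pool.Agent.W313.Hyp Pool.Agent.W313.Gr
open Pool.Agent.W309.T3 (rescale_eulerProd rescale_poly rm_comp binom_ne rm_binom card_char)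

section general

variable {k K : Type} [Field k] [Finite k] [Field K] [Algebra k K] [FF.IsFF k K]

/-- the bound by the weights -/
theorem vanish_le {l : ℕ} [Fact l.Prime] (hlk : (l : k) ≠ 0) {a b : K}
    (hΔ : 4 * a ^ 3 + 27 * b ^ 2 ≠ 0) (hN : PointsDvd l k a b) {P : Polynomial ℤ}
    (hP : IsZetaNumRel k K P) (hr : constDeg k K = 1) {m : ℕ} (hm : S.VanishesTo k a b m) :
    m + (den l ((Nat.card k : ℕ) : ZMod l)).rootMultiplicity ((Nat.card k : ℕ) : ZMod l)⁻¹ ≤
      rootSum l k P + weightSum l k a b := by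
  obtain ⟨A, R, hA, hR, hAR, hmu⟩ := exists_quotL hlk hΔ hN hP hr
  obtain ⟨G, hG⟩ := hm
  have hq := card_ne_zero_mod (k := k) hlk
  set x : ZMod l := ((Nat.card k : ℕ) : ZMod l)⁻¹ with hx
  set GG : Polynomial (ZMod l) := G.map (Int.castRingHom (ZMod l)) with hGG
  have hred : redL l (((1 - Polynomial.C (Nat.card k : ℤ) * Polynomial.X) ^ m * G :
      Polynomial ℤ) : PowerSeries ℤ) =
      (((1 - Polynomial.C ((Nat.card k : ℕ) : ZMod l) * Polynomial.X) ^ m * GG :
        Polynomial (ZMod l)) : PowerSeries (ZMod l)) := by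
    rw [redL_poly]
    congr 1
    rw [Polynomial.map_mul, Polynomial.map_pow, Polynomial.map_sub, Polynomial.map_one,
      Polynomial.map_mul, Polynomial.map_C, Polynomial.map_X]
    have h3 : (Int.castRingHom (ZMod l)) (Nat.card k : ℤ) = ((Nat.card k : ℕ) : ZMod l) := by
      rw [eq_intCast, Int.cast_natCast]
    rw [h3]
  rw [hG, hred] at hAR
  have h3 : A * ((1 - Polynomial.C ((Nat.card k : ℕ) : ZMod l) * Polynomial.X) ^ m * GG) = R := by
    apply Polynomial.coe_injective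
    rw [Polynomial.coe_mul, ← hAR]
  have h5 : (1 - Polynomial.C ((Nat.card k : ℕ) : ZMod l) * Polynomial.X) ^ m * GG ≠ 0 := by
    intro h
    rw [h, mul_zero] at h3
    exact hR h3.symm
  have hlin : (1 - Polynomial.C ((Nat.card k : ℕ) : ZMod l) * Polynomial.X :
      Polynomial (ZMod l)) ≠ 0 := by
    have := binom_ne (c := ((Nat.card k : ℕ) : ZMod l)) one_pos
    rwa [pow_one] at this
  have h6 := congrArg (Polynomial.rootMultiplicity x) h3
  rw [rm_mul x hA h5, rm_mul x (left_ne_zero_of_mul h5)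
    (right_ne_zero_of_mul h5), rm_pow x hlin, rm_linear hq] at h6
  omega

theorem den_two (h2 : (2 : k) ≠ 0) :
    (den 2 ((Nat.card k : ℕ) : ZMod 2)).rootMultiplicity ((Nat.card k : ℕ) : ZMod 2)⁻¹ = 4 := by
  have hq : ((Nat.card k : ℕ) : ZMod 2) = 1 := card_odd h2
  rw [hq, inv_one]
  unfold den
  have e1 : (1 - Polynomial.C 1 * Polynomial.X ^ 1 : Polynomial (ZMod 2)) =
      Polynomial.X - Polynomial.C 1 := by
    rw [Polynomial.C_1, one_mul, pow_one, CharTwo.sub_eq_add, CharTwo.sub_eq_add, add_comm]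
  rw [e1, Polynomial.C_1, one_mul, Polynomial.comp_X]
  have e2 : (Polynomial.X - 1 : Polynomial (ZMod 2)) = Polynomial.X - Polynomial.C 1 := by
    rw [Polynomial.C_1]
  rw [e2]
  have e3 : ((Polynomial.X - Polynomial.C 1) * (Polynomial.X - Polynomial.C 1) *
      ((Polynomial.X - Polynomial.C 1) * (Polynomial.X - Polynomial.C 1)) : Polynomial (ZMod 2)) =
      (Polynomial.X - Polynomial.C 1) ^ 4 := by ring
  rw [e3, Polynomial.rootMultiplicity_X_sub_C_pow]

theorem trace_pm (h6 : (6 : k) ≠ 0) {v : Place k K} {a b : K}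
    (hΔ : 4 * a ^ 3 + 27 * b ^ 2 ≠ 0) (hvg : v.red (minDisc v a b) = 0)
    (hA : v.red (minA v a b) ≠ 0) : trace v a b = 1 ∨ trace v a b = -1 := by
  classical
  have : Fintype v.RF := Fintype.ofFinite _
  rw [trace_char h6 hΔ hvg hA]
  apply quadraticChar_dichotomy
  have h2 : (2 : v.RF) ≠ 0 := by
    have := ne_RF v (two_ne h6)
    exact_mod_cast this
  have hab := ab_of_disc hΔ
  have hB : v.red (minB v a b) ≠ 0 := by
    intro h0
    have hv' := hvg
    unfold minDisc at hv'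
    rw [red_disc (reg_minA v hab) (reg_minB v hab), h0] at hv'
    have h4 : (2 : v.RF) ^ 2 * v.red (minA v a b) ^ 3 = 0 := by
      linear_combination hv'
    rcases mul_eq_zero.1 h4 with h5 | h5
    · exact pow_ne_zero 2 h2 h5
    · exact pow_ne_zero 3 hA h5
  exact mul_ne_zero (mul_ne_zero (neg_ne_zero.2 h2) hA) hB

theorem red_A_iff (v : Place k K) {a b : K} (hab : a ≠ 0 ∨ b ≠ 0) :
    (minA v a b ≠ 0 ∧ v.ord (minA v a b) = 0) ↔ v.red (minA v a b) ≠ 0 := by
  have hreg := reg_minA v hab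
  rw [Ne, Ne, v.red_eq_zero_iff hreg]
  constructor
  · rintro ⟨h1, h2⟩ (h3 | h3)
    · exact h1 h3
    · omega
  · intro h
    push Not at h
    have h3 := (v.reg_iff h.1).1 hreg
    exact ⟨h.1, le_antisymm h.2 h3⟩

/-- the weight for `l = 2` -/
theorem weight_two (h6 : (6 : k) ≠ 0) (v : Place k K) {a b : K}
    (hΔ : 4 * a ^ 3 + 27 * b ^ 2 ≠ 0) :
    weight 2 v a b = condExp v a b * twoPart v.deg := by
  classical
  have h2 : (2 : k) ≠ 0 := by
    have := two_ne h6
    exact_mod_cast this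
  have hq : ((Nat.card k : ℕ) : ZMod 2) = 1 := card_odd h2
  have hab := ab_of_disc hΔ
  unfold weight condExp
  by_cases hg : v.ord (minDisc v a b) = 0
  · rw [if_pos hg, if_pos hg, zero_mul]
  · have hvg : v.red (minDisc v a b) = 0 := by
      by_contra h3
      exact hg ((S.ord_disc_iff v hΔ).2 h3)
    rw [if_neg hg, if_neg hg, S.deg_eq]
    have e1 : (((2 : ℕ) : ℤ) ∣ Nat.card (S.Res v) - 1) := by
      rw [dvd_iff_mod, hq, one_pow, Int.cast_one]
    rw [if_pos e1]
    unfold twoPart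
    congr 1
    by_cases hA : v.red (minA v a b) = 0
    · have e2 : ¬ (((2 : ℕ) : ℤ) ∣ Nat.card (S.Res v) - S.trace v a b) := by
        rw [dvd_iff_mod, S.trace_eq, trace_add h6 hΔ hvg hA, Int.cast_zero, hq, one_pow]
        exact one_ne_zero
      rw [if_neg e2, if_neg (fun h => ((red_A_iff v hab).1 h) hA)]
    · have e2 : (((2 : ℕ) : ℤ) ∣ Nat.card (S.Res v) - S.trace v a b) := by
        rw [dvd_iff_mod, S.trace_eq, hq, one_pow]
        rcases trace_pm h6 hΔ hvg hA with ht | ht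
        · rw [ht, Int.cast_one]
        · rw [ht, Int.cast_neg, Int.cast_one]
          decide
      rw [if_pos e2, if_pos ((red_A_iff v hab).2 hA)]

theorem weightSum_two (h6 : (6 : k) ≠ 0) {a b : K} (hΔ : 4 * a ^ 3 + 27 * b ^ 2 ≠ 0) :
    weightSum 2 k a b = condSum k a b := by
  unfold weightSum condSum
  apply finsum_congr
  intro v
  rw [weight_two h6 v hΔ, S.deg_eq]

/-- the bound over a function field of odd class number -/
theorem bound_two (h6 : (6 : k) ≠ 0) {a b t : K} (hΔ : 4 * a ^ 3 + 27 * b ^ 2 ≠ 0)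
    (ht : t ^ 3 + a * t + b = 0) (hr : constDeg k K = 1) (hodd : Odd (S.classNumber k K)) {m : ℕ}
    (hm : S.VanishesTo k a b m) : m + 4 ≤ condSum k a b := by
  obtain ⟨P, hP, hP1⟩ := exists_num_rel k K
  have h2 : (2 : k) ≠ 0 := by
    have := two_ne h6
    exact_mod_cast this
  rw [S.classNumber_eq] at hodd
  have h1 := vanish_le (l := 2) (by exact_mod_cast h2) hΔ (pointsDvd_two h6 hΔ ht) hP hr hm
  rw [den_two h2, rootSum_two h2 hP1 hodd, weightSum_two h6 hΔ, zero_add] at h1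
  exact h1

end general

section loc

variable {k K : Type} [Field k] [Finite k] [Field K] [Algebra k K] [FF.IsFF k K]

theorem scaled_disc (c a b : K) : 4 * (c ^ 4 * a) ^ 3 + 27 * (c ^ 6 * b) ^ 2 =
    c ^ 12 * (4 * a ^ 3 + 27 * b ^ 2) := by ring

/-- a model with good reduction -/
theorem condExp_good {w : Place k K} {a b c0 : K} (hΔ : 4 * a ^ 3 + 27 * b ^ 2 ≠ 0)
    (hc0 : c0 ≠ 0) (hA0 : w.Reg (c0 ^ 4 * a)) (hB0 : w.Reg (c0 ^ 6 * b))
    (hd : w.ord (c0 ^ 12 * (4 * a ^ 3 + 27 * b ^ 2)) = 0) : condExp w a b = 0 := by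
  have hab := ab_of_disc hΔ
  have hs := minScale_spec w hab
  have h0 := ord_scale_zero hc0 hA0 hB0 hs (Or.inr ⟨by
    rw [scaled_disc]
    exact mul_ne_zero (pow_ne_zero _ hc0) hΔ, by rw [scaled_disc]; exact hd⟩)
  set u := minScale w a b / c0 with hu
  have hu0 : u ≠ 0 := div_ne_zero hs.1 hc0
  have hcu : minScale w a b = u * c0 := by rw [hu, div_mul_cancel₀ _ hc0]
  have h1 : w.ord (minDisc w a b) = 0 := by
    rw [minDisc_eq, hcu]
    have h2 : (u * c0) ^ 12 * (4 * a ^ 3 + 27 * b ^ 2) =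
        u ^ 12 * (c0 ^ 12 * (4 * a ^ 3 + 27 * b ^ 2)) := by ring
    rw [h2, w.ord_mul (pow_ne_zero 12 hu0) (mul_ne_zero (pow_ne_zero 12 hc0) hΔ), w.ord_pow, h0,
      hd]
    simp
  unfold condExp
  rw [if_pos h1]

/-- a model with good or multiplicative reduction -/
theorem condExp_mult {w : Place k K} {a b c0 : K} (hΔ : 4 * a ^ 3 + 27 * b ^ 2 ≠ 0)
    (hc0 : c0 ≠ 0) (hA0 : w.Reg (c0 ^ 4 * a)) (hB0 : w.Reg (c0 ^ 6 * b)) (ha : a ≠ 0)
    (hd : w.ord (c0 ^ 4 * a) = 0) : condExp w a b ≤ 1 := by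
  have hab := ab_of_disc hΔ
  have hs := minScale_spec w hab
  have h0 := ord_scale_zero hc0 hA0 hB0 hs (Or.inl ⟨mul_ne_zero (pow_ne_zero _ hc0) ha, hd⟩)
  set u := minScale w a b / c0 with hu
  have hu0 : u ≠ 0 := div_ne_zero hs.1 hc0
  have hcu : minScale w a b = u * c0 := by rw [hu, div_mul_cancel₀ _ hc0]
  have h3 : minA w a b = u ^ 4 * (c0 ^ 4 * a) := by
    unfold minA
    rw [hcu]
    ring
  have h1 : minA w a b ≠ 0 ∧ w.ord (minA w a b) = 0 := by
    rw [h3]
    have h4 : c0 ^ 4 * a ≠ 0 := mul_ne_zero (pow_ne_zero _ hc0) ha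
    refine ⟨mul_ne_zero (pow_ne_zero 4 hu0) h4, ?_⟩
    rw [w.ord_mul (pow_ne_zero 4 hu0) h4, w.ord_pow, h0, hd]
    simp
  unfold condExp
  split_ifs <;> omega

end loc

end Pool.Agent.TH943.TT
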